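import Mathlib
import Pool.Agent.X69.EVCVals

/-! The bowtie with four colours: Bob wins the eternal vertex colouring game, but not within the
first two rounds. -/

namespace Pool.Agent.Results.MP_16080b_co.ThreeRounds

open Pool.Agent.X69.EVC

/-- For the bowtie (two triangles sharing a vertex) and `k = 4` one has
`4 < chiInf` and `rounds = 3`; both infima are attained (the sets are nonempty). -/
theorem result :
    ({k | 1 ≤ k ∧ AliceWins bow k} : Set ℕ).Nonempty ∧ 4 < chiInf bow ∧
      ({r | BobWinsWithin bow 4 r} : Set ℕ).Nonempty ∧ rounds bow 4 = 3 :=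
  ⟨⟨6, by norm_num, aliceWins_of_degree bow (by decide)⟩, lt_chiInf, ⟨3, within_three⟩,
    rounds_bow⟩

end Pool.Agent.Results.MP_16080b_co.ThreeRounds
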